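import Mathlib

/-!
# The random König graph process: definitions
-/

open Finset

namespace Pool.Agent.KonigProcess

section Graph

variable {V : Type*} [Fintype V] [DecidableEq V]

/-- `C` is a vertex cover of `G`. -/
def IsCover (G : SimpleGraph V) (C : Finset V) : Prop :=
  ∀ u v, G.Adj u v → u ∈ C ∨ v ∈ C

/-- `M` is a matching of `G`: a set of edges of `G`, no two of which share a vertex. -/
def IsMatchingSet (G : SimpleGraph V) (M : Finset (Sym2 V)) : Prop :=
  (∀ e ∈ M, e ∈ G.edgeSet) ∧ ∀ e ∈ M, ∀ f ∈ M, ∀ v, v ∈ e → v ∈ f → e = f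

/-- The matching number `ν(G)`. -/
noncomputable def matchingNumber (G : SimpleGraph V) : ℕ :=
  sSup {k | ∃ M : Finset (Sym2 V), IsMatchingSet G M ∧ M.card = k}

/-- The vertex cover number `τ(G)`. -/
noncomputable def coverNumber (G : SimpleGraph V) : ℕ :=
  sInf {k | ∃ C : Finset V, IsCover G C ∧ C.card = k}

/-- The pairs of distinct vertices, that is, the edges of the complete graph on `V`. -/
abbrev Pair (V : Type*) := {e : Sym2 V // ¬ e.IsDiag}

/-- The graph `G + e`. -/
def addEdge (G : SimpleGraph V) (e : Pair V) : SimpleGraph V :=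
  G ⊔ SimpleGraph.fromEdgeSet {(e : Sym2 V)}

/-- `e` is accepted at `G`: `τ(G + e) = ν(G + e)`. -/
def Accepts (G : SimpleGraph V) (e : Pair V) : Prop :=
  coverNumber (addEdge G e) = matchingNumber (addEdge G e)

open Classical in
/-- One step of the process: `G + e` when this graph is a König graph, and `G` otherwise. -/
noncomputable def stepGraph (G : SimpleGraph V) (e : Pair V) : SimpleGraph V :=
  if Accepts G e then addEdge G e else G

open Classical in
/-- The union of all optimal vertex covers of `G`. -/
noncomputable def optUnion (G : SimpleGraph V) : Finset V :=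
  univ.filter (fun v => ∃ C : Finset V, IsCover G C ∧ C.card = coverNumber G ∧ v ∈ C)

end Graph

/-- An ordering `e_1, …, e_N` of the edges of `K_n` (`N = n choose 2`); the edge `e_{i+1}` is
`σ i`. -/
abbrev Ordering (n : ℕ) := Fin (n.choose 2) ≃ Pair (Fin n)

/-- The graph `G_m` of the König graph process for the ordering `σ`. -/
noncomputable def process {n : ℕ} (σ : Ordering n) : ℕ → SimpleGraph (Fin n)
  | 0 => ⊥
  | m + 1 => if h : m < n.choose 2 then stepGraph (process σ m) (σ ⟨m, h⟩) else process σ m

/-- The union `D_m` of all optimal vertex covers of `G_m`. -/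
noncomputable def D {n : ℕ} (σ : Ordering n) (m : ℕ) : Finset (Fin n) :=
  optUnion (process σ m)

/-- The probability of an event for a uniformly random ordering of the edges of `K_n`. -/
noncomputable def prob (n : ℕ) (P : Ordering n → Prop) : ℝ :=
  (Nat.card {σ : Ordering n // P σ} : ℝ) / (Nat.card (Ordering n) : ℝ)

end Pool.Agent.KonigProcess
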