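import Mathlib
import Pool.Agent.Helper92_KP.Defs

set_option linter.unusedSectionVars false

open Finset

namespace Pool.Agent.KonigProcess

variable {V : Type*} [Fintype V] [DecidableEq V]

theorem isMatchingSet_empty (G : SimpleGraph V) : IsMatchingSet G ∅ := by
  simp [IsMatchingSet]

theorem isCover_univ (G : SimpleGraph V) : IsCover G univ := by
  intro u v _; simp

theorem bddAbove_matching (G : SimpleGraph V) :
    BddAbove {k | ∃ M : Finset (Sym2 V), IsMatchingSet G M ∧ M.card = k} :=
  ⟨Fintype.card (Sym2 V), by rintro k ⟨M, -, rfl⟩; exact card_le_univ M⟩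

theorem exists_max_matching (G : SimpleGraph V) :
    ∃ M : Finset (Sym2 V), IsMatchingSet G M ∧ M.card = matchingNumber G :=
  Nat.sSup_mem (s := {k | ∃ M : Finset (Sym2 V), IsMatchingSet G M ∧ M.card = k})
    ⟨0, ∅, isMatchingSet_empty G, rfl⟩ (bddAbove_matching G)

theorem IsMatchingSet.card_le_number {G : SimpleGraph V} {M : Finset (Sym2 V)}
    (h : IsMatchingSet G M) : M.card ≤ matchingNumber G :=
  le_csSup (bddAbove_matching G) ⟨M, h, rfl⟩

theorem exists_min_cover (G : SimpleGraph V) :
    ∃ C : Finset V, IsCover G C ∧ C.card = coverNumber G :=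
  Nat.sInf_mem (s := {k | ∃ C : Finset V, IsCover G C ∧ C.card = k})
    ⟨_, univ, isCover_univ G, rfl⟩

theorem IsCover.number_le {G : SimpleGraph V} {C : Finset V} (h : IsCover G C) :
    coverNumber G ≤ C.card :=
  Nat.sInf_le ⟨C, h, rfl⟩

theorem IsCover.mono {G G' : SimpleGraph V} (hG : G ≤ G') {C : Finset V} (h : IsCover G' C) :
    IsCover G C := fun u v huv => h u v (hG huv)

theorem IsMatchingSet.mono {G G' : SimpleGraph V} (hG : G ≤ G') {M : Finset (Sym2 V)}
    (h : IsMatchingSet G M) : IsMatchingSet G' M :=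
  ⟨fun e he => SimpleGraph.edgeSet_mono hG (h.1 e he), h.2⟩

/-- an edge of a matching has an endpoint in each cover -/
theorem exists_mem_cover {G : SimpleGraph V} {C : Finset V} (hC : IsCover G C)
    {e : Sym2 V} (he : e ∈ G.edgeSet) : ∃ c ∈ C, c ∈ e := by
  induction e using Sym2.ind with
  | _ x y =>
    rw [SimpleGraph.mem_edgeSet] at he
    rcases hC x y he with h | h
    · exact ⟨x, h, by simp⟩
    · exact ⟨y, h, by simp⟩

theorem matching_card_le_cover_card {G : SimpleGraph V} {M : Finset (Sym2 V)} {C : Finset V}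
    (hM : IsMatchingSet G M) (hC : IsCover G C) : M.card ≤ C.card := by
  classical
  rcases M.eq_empty_or_nonempty with rfl | ⟨e0, he0⟩
  · simp
  obtain ⟨c0, -, -⟩ := exists_mem_cover hC (hM.1 e0 he0)
  have : Nonempty V := ⟨c0⟩
  have h : ∀ e ∈ M, ∃ c ∈ C, c ∈ e := fun e he => exists_mem_cover hC (hM.1 e he)
  choose! f hf hf' using h
  refine card_le_card_of_injOn f hf ?_
  intro e he e' he' hee
  exact hM.2 e he e' he' (f e) (hf' e he) (by rw [hee]; exact hf' e' he')

theorem matchingNumber_le_coverNumber (G : SimpleGraph V) :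
    matchingNumber G ≤ coverNumber G := by
  obtain ⟨M, hM, hM'⟩ := exists_max_matching G
  obtain ⟨C, hC, hC'⟩ := exists_min_cover G
  rw [← hM', ← hC']
  exact matching_card_le_cover_card hM hC

theorem matchingNumber_mono {G G' : SimpleGraph V} (h : G ≤ G') :
    matchingNumber G ≤ matchingNumber G' := by
  obtain ⟨M, hM, hM'⟩ := exists_max_matching G
  rw [← hM']
  exact (hM.mono h).card_le_number

theorem coverNumber_mono {G G' : SimpleGraph V} (h : G ≤ G') :
    coverNumber G ≤ coverNumber G' := by
  obtain ⟨C, hC, hC'⟩ := exists_min_cover G'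
  rw [← hC']
  exact (hC.mono h).number_le

theorem le_addEdge (G : SimpleGraph V) (e : Pair V) : G ≤ addEdge G e := le_sup_left

theorem le_stepGraph (G : SimpleGraph V) (e : Pair V) : G ≤ stepGraph G e := by
  unfold stepGraph
  split_ifs
  · exact le_addEdge G e
  · exact le_rfl

theorem addEdge_adj {G : SimpleGraph V} {e : Pair V} {x y : V} :
    (addEdge G e).Adj x y ↔ G.Adj x y ∨ ((e : Sym2 V) = s(x, y)) := by
  unfold addEdge
  rw [SimpleGraph.sup_adj, SimpleGraph.fromEdgeSet_adj]
  constructor
  · rintro (h | ⟨h, -⟩)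
    · exact Or.inl h
    · right; exact (Set.mem_singleton_iff.1 h).symm
  · rintro (h | h)
    · exact Or.inl h
    · refine Or.inr ⟨Set.mem_singleton_iff.2 h.symm, ?_⟩
      rintro rfl
      exact e.2 (by rw [h]; simp)

/-- a cover of `G` that covers `e` is a cover of `G + e` -/
theorem IsCover.addEdge {G : SimpleGraph V} {C : Finset V} (hC : IsCover G C) {e : Pair V}
    {c : V} (hc : c ∈ C) (hce : c ∈ (e : Sym2 V)) : IsCover (addEdge G e) C := by
  intro x y hxy
  rcases addEdge_adj.1 hxy with h | h
  · exact hC x y h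
  · rw [h, Sym2.mem_iff] at hce
    rcases hce with rfl | rfl
    · exact Or.inl hc
    · exact Or.inr hc

/-- an edge touching an optimal cover is accepted -/
theorem accepts_of_mem_cover {G : SimpleGraph V} (hG : coverNumber G = matchingNumber G)
    {e : Pair V} {c : V} (hc : c ∈ optUnion G) (hce : c ∈ (e : Sym2 V)) : Accepts G e := by
  simp only [optUnion, mem_filter, mem_univ, true_and] at hc
  obtain ⟨C, hC, hCc, hcC⟩ := hc
  have h1 := (hC.addEdge hcC hce).number_le
  have h2 := matchingNumber_mono (le_addEdge G e)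
  have h3 := matchingNumber_le_coverNumber (addEdge G e)
  unfold Accepts
  omega

/-- an edge between two vertices missed by a maximum matching is accepted -/
theorem accepts_of_missed {G : SimpleGraph V} (hG : coverNumber G = matchingNumber G)
    {M : Finset (Sym2 V)} (hM : IsMatchingSet G M) (hMc : M.card = matchingNumber G)
    {e : Pair V} (he : ∀ f ∈ M, ∀ v, v ∈ (e : Sym2 V) → v ∉ f) : Accepts G e := by
  classical
  obtain ⟨C, hC, hCc⟩ := exists_min_cover G
  have hM' : IsMatchingSet (addEdge G e) (insert (e : Sym2 V) M) := by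
    constructor
    · intro f hf
      rcases mem_insert.1 hf with rfl | hf
      · have : ∀ f : Sym2 V, f = (e : Sym2 V) → f ∈ (addEdge G e).edgeSet := by
          intro f
          induction f using Sym2.ind with
          | _ x y =>
            intro h
            rw [SimpleGraph.mem_edgeSet, addEdge_adj]
            exact Or.inr h.symm
        exact this _ rfl
      · exact SimpleGraph.edgeSet_mono (le_addEdge G e) (hM.1 f hf)
    · intro f hf g hg v hvf hvg
      rcases mem_insert.1 hf with rfl | hf <;> rcases mem_insert.1 hg with rfl | hg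
      · rfl
      · exact absurd hvg (he g hg v hvf)
      · exact absurd hvf (he f hf v hvg)
      · exact hM.2 f hf g hg v hvf hvg
  have hnot : (e : Sym2 V) ∉ M := by
    intro h
    obtain ⟨x, hx⟩ : ∃ x, x ∈ (e : Sym2 V) := by
      have : ∀ f : Sym2 V, ∃ x, x ∈ f := by
        intro f
        induction f using Sym2.ind with
        | _ x y => exact ⟨x, by simp⟩
      exact this _
    exact he _ h x hx hx
  have h1 := hM'.card_le_number
  rw [card_insert_of_notMem hnot] at h1
  obtain ⟨x, hx⟩ : ∃ x, x ∈ (e : Sym2 V) := by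
    have : ∀ f : Sym2 V, ∃ x, x ∈ f := by
      intro f
      induction f using Sym2.ind with
      | _ x y => exact ⟨x, by simp⟩
    exact this _
  have hC' : IsCover G (insert x C) := by
    intro u v huv
    rcases hC u v huv with h | h
    · exact Or.inl (mem_insert_of_mem h)
    · exact Or.inr (mem_insert_of_mem h)
  have h2 := (hC'.addEdge (mem_insert_self x C) hx).number_le
  have h3 := card_insert_le x C
  have h4 := matchingNumber_le_coverNumber (addEdge G e)
  unfold Accepts
  omega

theorem coverNumber_bot : coverNumber (⊥ : SimpleGraph V) = 0 := by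
  have : IsCover (⊥ : SimpleGraph V) ∅ := by intro u v h; simp at h
  have := this.number_le
  simpa using this

theorem matchingNumber_bot : matchingNumber (⊥ : SimpleGraph V) = 0 := by
  have := matchingNumber_le_coverNumber (⊥ : SimpleGraph V)
  rw [coverNumber_bot] at this
  omega

theorem koenig_step {G : SimpleGraph V} (hG : coverNumber G = matchingNumber G) (e : Pair V) :
    coverNumber (stepGraph G e) = matchingNumber (stepGraph G e) := by
  unfold stepGraph
  split_ifs with h
  · exact h
  · exact hG

/-- the partner function of a König graph -/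
theorem exists_partner {G : SimpleGraph V} (hG : coverNumber G = matchingNumber G)
    {C : Finset V} (hC : IsCover G C) (hCc : C.card = coverNumber G) :
    ∃ p : V → V, (∀ c ∈ C, G.Adj c (p c) ∧ p c ∉ C) ∧ Set.InjOn p C := by
  classical
  rcases C.eq_empty_or_nonempty with rfl | ⟨c0, hc0⟩
  · exact ⟨id, by simp, by simp⟩
  have : Nonempty V := ⟨c0⟩
  have : Nonempty (Sym2 V) := ⟨s(c0, c0)⟩
  obtain ⟨M, hM, hMc⟩ := exists_max_matching G
  have h : ∀ e ∈ M, ∃ c ∈ C, c ∈ e := fun e he => exists_mem_cover hC (hM.1 e he)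
  choose! f hf hf' using h
  have hinj : Set.InjOn f (M : Set (Sym2 V)) := by
    intro e he e' he' hee
    exact hM.2 e he e' he' (f e) (hf' e he) (by rw [hee]; exact hf' e' he')
  have himg : M.image f = C := by
    refine eq_of_subset_of_card_le ?_ ?_
    · intro c hc
      obtain ⟨e, he, rfl⟩ := mem_image.1 hc
      exact hf e he
    · rw [card_image_of_injOn hinj]; omega
  have hsurj : ∀ c ∈ C, ∃ e ∈ M, f e = c := by
    intro c hc
    rw [← himg] at hc
    simpa using hc
  choose! g hg hg' using hsurj
  have hq : ∀ c ∈ C, ∃ y, g c = s(c, y) := by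
    intro c hc
    have h1 : c ∈ g c := by
      have := hf' (g c) (hg c hc)
      rwa [hg' c hc] at this
    exact ⟨Sym2.Mem.other h1, (Sym2.other_spec h1).symm⟩
  choose! p hp using hq
  have hadj : ∀ c ∈ C, G.Adj c (p c) := by
    intro c hc
    have := hM.1 (g c) (hg c hc)
    rwa [hp c hc, SimpleGraph.mem_edgeSet] at this
  refine ⟨p, fun c hc => ⟨hadj c hc, ?_⟩, ?_⟩
  · intro hpc
    have h1 : g c = g (p c) := by
      refine hM.2 _ (hg c hc) _ (hg _ hpc) (p c) ?_ ?_
      · rw [hp c hc]; simp
      · rw [hp _ hpc]; simp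
    have h2 : c = p c :=
      calc c = f (g c) := (hg' c hc).symm
        _ = f (g (p c)) := by rw [h1]
        _ = p c := hg' _ hpc
    exact (hadj c hc).ne h2
  · intro c hc c' hc' hcc
    have hc : c ∈ C := hc
    have hc' : c' ∈ C := hc'
    have h1 : g c = g c' := by
      refine hM.2 _ (hg c hc) _ (hg _ hc') (p c) ?_ ?_
      · rw [hp c hc]; simp
      · rw [hp _ hc', hcc]; simp
    exact calc c = f (g c) := (hg' c hc).symm
        _ = f (g c') := by rw [h1]
        _ = c' := hg' _ hc'

end Pool.Agent.KonigProcess
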