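import Mathlib
import Pool.Agent.Helper92_KP.Basic

set_option linter.unusedSectionVars false

open Finset

namespace Pool.Agent.KonigProcess

variable {V : Type*} [Fintype V] [DecidableEq V]

open Classical in
/-- The accepted pairs joining `A` to `Y`. -/
noncomputable def acc (A Y : Finset V) (G : SimpleGraph V) : Finset (Pair V) :=
  univ.filter (fun e => Accepts G e ∧ ∃ a ∈ A, ∃ y ∈ Y, (e : Sym2 V) = s(a, y))

theorem mem_acc {A Y : Finset V} {G : SimpleGraph V} {e : Pair V} :
    e ∈ acc A Y G ↔ Accepts G e ∧ ∃ a ∈ A, ∃ y ∈ Y, (e : Sym2 V) = s(a, y) := by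
  classical
  unfold acc
  rw [mem_filter]
  simp

open Classical in
theorem pairs_card (X Z : Finset V) :
    X.card * (Z.card - 1) ≤
      2 * (univ.filter (fun e : Pair V => ∃ x ∈ X, ∃ z ∈ Z, (e : Sym2 V) = s(x, z))).card := by
  set P := univ.filter (fun e : Pair V => ∃ x ∈ X, ∃ z ∈ Z, (e : Sym2 V) = s(x, z)) with hP
  set Q := (X ×ˢ Z).filter (fun q : V × V => q.1 ≠ q.2) with hQ
  have h1 : X.card * (Z.card - 1) ≤ Q.card := by
    have : Q.card = ∑ x ∈ X, (Z.filter (fun z => x ≠ z)).card := by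
      rw [hQ, card_filter, sum_product]
      refine sum_congr rfl ?_
      intro x _
      rw [card_filter]
    rw [this, ← smul_eq_mul]
    refine card_nsmul_le_sum X _ _ ?_
    intro x _
    have : Z.erase x ⊆ Z.filter (fun z => x ≠ z) := by
      intro z hz
      rw [mem_erase] at hz
      exact mem_filter.2 ⟨hz.2, fun h => hz.1 h.symm⟩
    exact (pred_card_le_card_erase).trans (card_le_card this)
  have h2 : Q.card ≤ 2 * (P.image (fun e : Pair V => (e : Sym2 V))).card := by
    have h3 : Q.image (fun q : V × V => s(q.1, q.2)) ⊆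
        P.image (fun e : Pair V => (e : Sym2 V)) := by
      intro e he
      obtain ⟨q, hq, rfl⟩ := mem_image.1 he
      rw [hQ, mem_filter, mem_product] at hq
      have hd : ¬ (s(q.1, q.2)).IsDiag := by
        rw [Sym2.mk_isDiag_iff]; exact hq.2
      refine mem_image.2 ⟨⟨s(q.1, q.2), hd⟩, ?_, rfl⟩
      rw [hP, mem_filter]
      exact ⟨mem_univ _, q.1, hq.1.1, q.2, hq.1.2, rfl⟩
    have h4 : Q.card ≤ 2 * (Q.image (fun q : V × V => s(q.1, q.2))).card := by
      refine card_le_mul_card_image Q 2 ?_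
      intro e he
      obtain ⟨q, hq, rfl⟩ := mem_image.1 he
      have : Q.filter (fun x => s(x.1, x.2) = s(q.1, q.2)) ⊆ {q, (q.2, q.1)} := by
        intro r hr
        rw [mem_filter] at hr
        rcases Sym2.eq_iff.1 hr.2 with ⟨h, h'⟩ | ⟨h, h'⟩
        · simp [Prod.ext_iff, h, h']
        · simp [Prod.ext_iff, h, h']
      exact (card_le_card this).trans card_le_two
    exact h4.trans (Nat.mul_le_mul_left 2 (card_le_card h3))
  have h5 : (P.image (fun e : Pair V => (e : Sym2 V))).card = P.card :=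
    card_image_of_injective _ Subtype.val_injective
  omega

theorem card_le_acc {A Y X Z : Finset V} {G : SimpleGraph V} (hX : X ⊆ A) (hZ : Z ⊆ Y)
    (h : ∀ e : Pair V, ∀ x ∈ X, ∀ z ∈ Z, (e : Sym2 V) = s(x, z) → Accepts G e) :
    X.card * (Z.card - 1) ≤ 2 * (acc A Y G).card := by
  classical
  refine (pairs_card X Z).trans (Nat.mul_le_mul_left 2 (card_le_card ?_))
  intro e he
  rw [mem_filter] at he
  obtain ⟨-, x, hx, z, hz, hxz⟩ := he
  unfold acc
  rw [mem_filter]
  exact ⟨mem_univ _, h e x hx z hz hxz, x, hX hx, z, hZ hz, hxz⟩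

theorem card_le_acc_real {A Y X Z : Finset V} {G : SimpleGraph V} (hX : X ⊆ A) (hZ : Z ⊆ Y)
    (h : ∀ e : Pair V, ∀ x ∈ X, ∀ z ∈ Z, (e : Sym2 V) = s(x, z) → Accepts G e) :
    (X.card : ℝ) * ((Z.card : ℝ) - 1) ≤ 2 * ((acc A Y G).card : ℝ) := by
  have h1 := card_le_acc hX hZ h
  have h2 : (Z.card : ℝ) - 1 ≤ ((Z.card - 1 : ℕ) : ℝ) := by
    have : Z.card ≤ (Z.card - 1) + 1 := by omega
    have : (Z.card : ℝ) ≤ ((Z.card - 1 : ℕ) : ℝ) + 1 := by exact_mod_cast this
    linarith
  calc (X.card : ℝ) * ((Z.card : ℝ) - 1) ≤ (X.card : ℝ) * ((Z.card - 1 : ℕ) : ℝ) :=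
        mul_le_mul_of_nonneg_left h2 (by positivity)
    _ = ((X.card * (Z.card - 1) : ℕ) : ℝ) := by push_cast; ring
    _ ≤ ((2 * (acc A Y G).card : ℕ) : ℝ) := by exact_mod_cast h1
    _ = 2 * ((acc A Y G).card : ℝ) := by push_cast; ring

open Classical in
/-- The three-window condition. -/
structure Good (G : ℕ → SimpleGraph V) (t : ℕ) (κ : ℝ) : Prop where
  koenig : ∀ i, coverNumber (G i) = matchingNumber (G i)
  mono : Monotone G
  win : ∀ w, w < 3 → ∀ A Y : Finset V,
    (∀ a ∈ A, ∀ y ∈ Y, ¬ (G ((w + 1) * (2 * t))).Adj a y) →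
    ((Ico (w * (2 * t)) ((w + 1) * (2 * t))).filter
      (fun i => κ * (Fintype.card V : ℝ) ^ 2 ≤ ((acc A Y (G i)).card : ℝ))).card < t

/-- `D ∩ I` inside an independent set -/
theorem acc_of_optUnion {G : SimpleGraph V} (hG : coverNumber G = matchingNumber G)
    (A Y : Finset V) :
    ((A ∩ optUnion G).card : ℝ) * ((Y.card : ℝ) - 1) ≤ 2 * ((acc A Y G).card : ℝ) := by
  refine card_le_acc_real inter_subset_left (Subset.refl Y) ?_
  intro e x hx z _ he
  refine accepts_of_mem_cover hG (mem_inter.1 hx).2 ?_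
  rw [he]; simp

theorem subset_optUnion {G : SimpleGraph V} {C : Finset V} (hC : IsCover G C)
    (hCc : C.card = coverNumber G) : C ⊆ optUnion G := by
  classical
  intro c hc
  simp only [optUnion, mem_filter, mem_univ, true_and]
  exact ⟨C, hC, hCc, hc⟩

theorem coverNumber_le_card_optUnion (G : SimpleGraph V) :
    coverNumber G ≤ (optUnion G).card := by
  obtain ⟨C, hC, hCc⟩ := exists_min_cover G
  rw [← hCc]
  exact card_le_card (subset_optUnion hC hCc)

/-- missed vertices of an independent set -/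
theorem acc_of_missed {G G' : SimpleGraph V} (hG : coverNumber G = matchingNumber G)
    (hle : G ≤ G') {C : Finset V} (hC : IsCover G' C) :
    ∃ x : ℕ, Fintype.card V ≤ x + C.card + matchingNumber G ∧
      (x : ℝ) * ((x : ℝ) - 1) ≤ 2 * ((acc Cᶜ Cᶜ G).card : ℝ) := by
  classical
  obtain ⟨M, hM, hMc⟩ := exists_max_matching G
  set X := Cᶜ.filter (fun v => ∀ e ∈ M, v ∉ e) with hX
  refine ⟨X.card, ?_, ?_⟩
  · have h1 : (Cᶜ.filter (fun v => ¬ ∀ e ∈ M, v ∉ e)).card ≤ M.card := by
      have h : ∀ v ∈ Cᶜ.filter (fun v => ¬ ∀ e ∈ M, v ∉ e), ∃ e ∈ M, v ∈ e := by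
        intro v hv
        have := (mem_filter.1 hv).2
        push Not at this
        exact this
      rcases (Cᶜ.filter (fun v => ¬ ∀ e ∈ M, v ∉ e)).eq_empty_or_nonempty with hM0 | ⟨v0, hv0⟩
      · rw [hM0]; simp
      have : Nonempty (Sym2 V) := ⟨s(v0, v0)⟩
      choose! f hf hf' using h
      refine card_le_card_of_injOn f hf ?_
      intro v hv v' hv' hvv
      by_contra hne
      have h2 : f v = s(v, v') := by
        have ha := hf' v hv
        have hb := hf' v' hv'
        rw [← hvv] at hb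
        exact (Sym2.mem_and_mem_iff hne).1 ⟨ha, hb⟩
      have h3 := hM.1 _ (hf v hv)
      rw [h2, SimpleGraph.mem_edgeSet] at h3
      have h4 := hC v v' (hle h3)
      have h5 := (mem_filter.1 (mem_coe.1 hv)).1
      have h6 := (mem_filter.1 (mem_coe.1 hv')).1
      rw [mem_compl] at h5 h6
      tauto
    have h2 : X.card + (Cᶜ.filter (fun v => ¬ ∀ e ∈ M, v ∉ e)).card = Cᶜ.card := by
      rw [hX]
      convert card_filter_add_card_filter_not (s := Cᶜ) (fun v => ∀ e ∈ M, v ∉ e)
    have h3 := card_compl C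
    have h4 := card_le_univ C
    rw [← hMc]
    omega
  · refine card_le_acc_real (filter_subset _ _) (filter_subset _ _) ?_
    intro e x hx z hz he
    refine accepts_of_missed hG hM hMc ?_
    intro f hf v hv
    rw [he, Sym2.mem_iff] at hv
    rcases hv with rfl | rfl
    · exact (mem_filter.1 hx).2 f hf
    · exact (mem_filter.1 hz).2 f hf

theorem Good.matching_large {G : ℕ → SimpleGraph V} {t : ℕ} {θ : ℝ}
    (hn : 8 ≤ θ * (Fintype.card V : ℝ))
    (h : Good G t (θ ^ 2 / 64)) {m : ℕ} (hm : 2 * t ≤ m) :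
    (1 - θ / 4) * (Fintype.card V : ℝ) ≤ 2 * (matchingNumber (G m) : ℝ) := by
  classical
  set n : ℝ := (Fintype.card V : ℝ) with hnn
  have hmono := matchingNumber_mono (h.mono hm)
  have hmono' : (matchingNumber (G (2 * t)) : ℝ) ≤ matchingNumber (G m) := by exact_mod_cast hmono
  by_contra hcon
  push Not at hcon
  obtain ⟨C, hC, hCc⟩ := exists_min_cover (G (2 * t))
  have hind : ∀ a ∈ Cᶜ, ∀ y ∈ Cᶜ, ¬ (G ((0 + 1) * (2 * t))).Adj a y := by
    intro a ha y hy hadj
    rw [mem_compl] at ha hy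
    have hadj : (G (2 * t)).Adj a y := by simpa using hadj
    rcases hC a y hadj with h | h
    · exact ha h
    · exact hy h
  have hwin := h.win 0 (by norm_num) Cᶜ Cᶜ hind
  have hall : (Ico (0 * (2 * t)) ((0 + 1) * (2 * t))).filter
      (fun i => θ ^ 2 / 64 * n ^ 2 ≤ ((acc Cᶜ Cᶜ (G i)).card : ℝ)) =
      Ico (0 * (2 * t)) ((0 + 1) * (2 * t)) := by
    refine filter_true_of_mem ?_
    intro i hi
    rw [mem_Ico] at hi
    have hi2 : i ≤ 2 * t := by omega
    obtain ⟨x, hx1, hx2⟩ := acc_of_missed (h.koenig i) (h.mono hi2) hC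
    have hmi := matchingNumber_mono (h.mono hi2)
    have hk := h.koenig (2 * t)
    have hx3 : n ≤ x + 2 * (matchingNumber (G (2 * t)) : ℝ) := by
      have : Fintype.card V ≤ x + 2 * matchingNumber (G (2 * t)) := by omega
      rw [hnn]; exact_mod_cast this
    have hx4 : θ / 4 * n ≤ x := by linarith
    have hx5 : 1 ≤ (x : ℝ) - 1 := by linarith
    have hx6 : θ / 8 * n ≤ (x : ℝ) - 1 := by linarith
    have hpos : 0 ≤ θ / 8 * n := by linarith
    have : θ / 4 * n * (θ / 8 * n) ≤ (x : ℝ) * ((x : ℝ) - 1) :=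
      mul_le_mul hx4 hx6 hpos (by linarith)
    nlinarith [this, hx2]
  rw [hall, Nat.card_Ico] at hwin
  omega

/-- stability of near-optimal covers -/
theorem Good.stability {G : ℕ → SimpleGraph V} {t : ℕ} {θ : ℝ} (hθ : 0 < θ) (hθ1 : θ ≤ 1 / 8)
    (hn : 8 ≤ θ * (Fintype.card V : ℝ))
    (h : Good G t (θ ^ 2 / 64)) {C₁ C₂ : Finset V}
    (h₁ : IsCover (G (4 * t)) C₁) (h₂ : IsCover (G (4 * t)) C₂)
    (hc₁ : 2 * C₁.card ≤ Fintype.card V) (hc₂ : 2 * C₂.card ≤ Fintype.card V) :
    ((C₁ \ C₂).card : ℝ) ≤ θ / 4 * (Fintype.card V : ℝ) := by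
  classical
  set n : ℝ := (Fintype.card V : ℝ) with hnn
  have hn64 : 64 ≤ n := by
    by_contra hcon
    push Not at hcon
    have : θ * n < 8 := by
      have : 0 ≤ n := by positivity
      nlinarith
    linarith
  have hind : ∀ C : Finset V, IsCover (G (4 * t)) C → ∀ a ∈ Cᶜ, ∀ y ∈ Cᶜ,
      ¬ (G ((1 + 1) * (2 * t))).Adj a y := by
    intro C hC a ha y hy hadj
    rw [mem_compl] at ha hy
    have e : (1 + 1) * (2 * t) = 4 * t := by ring
    rw [e] at hadj
    rcases hC a y hadj with h | h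
    · exact ha h
    · exact hy h
  have w₁ := h.win 1 (by norm_num) _ _ (hind C₁ h₁)
  have w₂ := h.win 1 (by norm_num) _ _ (hind C₂ h₂)
  rw [← hnn] at w₁ w₂
  -- a common inactive time
  obtain ⟨i, hi, hi₁, hi₂⟩ : ∃ i ∈ Ico (1 * (2 * t)) ((1 + 1) * (2 * t)),
      ((acc C₁ᶜ C₁ᶜ (G i)).card : ℝ) < θ ^ 2 / 64 * n ^ 2 ∧
      ((acc C₂ᶜ C₂ᶜ (G i)).card : ℝ) < θ ^ 2 / 64 * n ^ 2 := by
    by_contra hcon
    push Not at hcon
    have hsub : Ico (1 * (2 * t)) ((1 + 1) * (2 * t)) ⊆
        (Ico (1 * (2 * t)) ((1 + 1) * (2 * t))).filter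
          (fun i => θ ^ 2 / 64 * n ^ 2 ≤ ((acc C₁ᶜ C₁ᶜ (G i)).card : ℝ)) ∪
        (Ico (1 * (2 * t)) ((1 + 1) * (2 * t))).filter
          (fun i => θ ^ 2 / 64 * n ^ 2 ≤ ((acc C₂ᶜ C₂ᶜ (G i)).card : ℝ)) := by
      intro i hi
      rw [mem_union, mem_filter, mem_filter]
      by_cases hA : θ ^ 2 / 64 * n ^ 2 ≤ ((acc C₁ᶜ C₁ᶜ (G i)).card : ℝ)
      · exact Or.inl ⟨hi, hA⟩
      · exact Or.inr ⟨hi, hcon i hi (not_le.1 hA)⟩
    have hc := (card_le_card hsub).trans (card_union_le _ _)
    rw [Nat.card_Ico] at hc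
    have e : (1 + 1) * (2 * t) - 1 * (2 * t) = 2 * t := by omega
    rw [e] at hc
    omega
  rw [mem_Ico] at hi
  have hsmall : ∀ C : Finset V, 2 * C.card ≤ Fintype.card V →
      ((acc Cᶜ Cᶜ (G i)).card : ℝ) < θ ^ 2 / 64 * n ^ 2 →
      ((Cᶜ ∩ optUnion (G i)).card : ℝ) ≤ θ / 16 * n := by
    intro C hC hacc
    by_contra hcon
    push Not at hcon
    have h1 := acc_of_optUnion (h.koenig i) Cᶜ Cᶜ
    have h2 : n / 2 ≤ (Cᶜ.card : ℝ) := by
      have h3 := card_compl C
      have : Fintype.card V ≤ 2 * Cᶜ.card := by omega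
      have : n ≤ 2 * (Cᶜ.card : ℝ) := by rw [hnn]; exact_mod_cast this
      linarith
    have h3 : n / 4 ≤ (Cᶜ.card : ℝ) - 1 := by linarith
    have h4 : θ / 16 * n * (n / 4) ≤ ((Cᶜ ∩ optUnion (G i)).card : ℝ) * ((Cᶜ.card : ℝ) - 1) :=
      mul_le_mul hcon.le h3 (by linarith) (by positivity)
    have h5 : θ ^ 2 / 64 * n ^ 2 ≤ θ / 512 * n ^ 2 := by
      apply mul_le_mul_of_nonneg_right _ (by positivity)
      nlinarith
    have h6 : (0:ℝ) < θ * n ^ 2 := by positivity
    nlinarith [h4, h5, h1, hacc, h6]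
  have hs₁ := hsmall C₁ hc₁ hi₁
  have hs₂ := hsmall C₂ hc₂ hi₂
  -- the union of the two independent sets
  have hD : (1 - θ / 4) * n ≤ 2 * ((optUnion (G i)).card : ℝ) := by
    have h1 := h.matching_large hn (m := i) (by omega)
    have h2 := coverNumber_le_card_optUnion (G i)
    rw [h.koenig i] at h2
    have h3 : (matchingNumber (G i) : ℝ) ≤ (optUnion (G i)).card := by exact_mod_cast h2
    linarith
  -- vertices outside both covers
  have hsub : optUnion (G i) ⊆ (C₁ ∩ C₂) ∪ (C₁ᶜ ∩ optUnion (G i)) ∪ (C₂ᶜ ∩ optUnion (G i)) := by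
    intro v hv
    simp only [mem_union, mem_inter, mem_compl]
    tauto
  have hcard : ((optUnion (G i)).card : ℝ) ≤ (C₁ ∩ C₂).card + (C₁ᶜ ∩ optUnion (G i)).card +
      (C₂ᶜ ∩ optUnion (G i)).card := by
    have h1 := card_le_card hsub
    have h2 := card_union_le ((C₁ ∩ C₂) ∪ (C₁ᶜ ∩ optUnion (G i))) (C₂ᶜ ∩ optUnion (G i))
    have h3 := card_union_le (C₁ ∩ C₂) (C₁ᶜ ∩ optUnion (G i))
    exact_mod_cast (by omega : (optUnion (G i)).card ≤ (C₁ ∩ C₂).card +
      (C₁ᶜ ∩ optUnion (G i)).card + (C₂ᶜ ∩ optUnion (G i)).card)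
  have hdiff : ((C₁ \ C₂).card : ℝ) + (C₁ ∩ C₂).card = C₁.card := by
    exact_mod_cast card_sdiff_add_card_inter C₁ C₂
  have hc₁' : 2 * (C₁.card : ℝ) ≤ n := by rw [hnn]; exact_mod_cast hc₁
  linarith

/-- the union of all optimal covers is small -/
theorem Good.upper {G : ℕ → SimpleGraph V} {t : ℕ} {θ : ℝ} (hθ : 0 < θ) (hθ1 : θ ≤ 1 / 8)
    (hn : 8 ≤ θ * (Fintype.card V : ℝ)) (ht : 1 ≤ t)
    (h : Good G t (θ ^ 2 / 64)) {m : ℕ} (hm : 6 * t ≤ m) :
    ((optUnion (G m)).card : ℝ) ≤ (1 / 2 + θ) * (Fintype.card V : ℝ) := by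
  classical
  set n : ℝ := (Fintype.card V : ℝ) with hnn
  have hn64 : 64 ≤ n := by
    by_contra hcon
    push Not at hcon
    have : θ * n < 8 := by
      have : 0 ≤ n := by positivity
      nlinarith
    linarith
  -- a matching has at most n/2 edges
  have hhalf : ∀ i, 2 * coverNumber (G i) ≤ Fintype.card V := by
    intro i
    rw [h.koenig i]
    obtain ⟨C, hC, hCc⟩ := exists_min_cover (G i)
    obtain ⟨p, hp, hinj⟩ := exists_partner (h.koenig i) hC hCc
    have h1 : (C.image p).card = C.card := card_image_of_injOn hinj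
    have h2 : Disjoint C (C.image p) := by
      rw [disjoint_right]
      intro y hy
      obtain ⟨c, hc, rfl⟩ := mem_image.1 hy
      exact (hp c hc).2
    have h3 := card_union_of_disjoint h2
    have h4 := card_le_univ (C ∪ C.image p)
    rw [← h.koenig i]
    omega
  obtain ⟨C, hC, hCc⟩ := exists_min_cover (G m)
  obtain ⟨p, hp, hinj⟩ := exists_partner (h.koenig m) hC hCc
  have hCn : 2 * C.card ≤ Fintype.card V := by rw [hCc]; exact hhalf m
  have hCn' : 2 * (C.card : ℝ) ≤ n := by rw [hnn]; exact_mod_cast hCn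
  -- other optimal covers
  have hswap : ∀ C' : Finset V, IsCover (G m) C' → C'.card = coverNumber (G m) →
      C' \ C = (C \ C').image p := by
    intro C' hC' hCc'
    refine (eq_of_subset_of_card_le ?_ ?_).symm
    · intro y hy
      obtain ⟨c, hc, rfl⟩ := mem_image.1 hy
      rw [mem_sdiff] at hc
      rw [mem_sdiff]
      refine ⟨?_, (hp c hc.1).2⟩
      rcases hC' c (p c) (hp c hc.1).1 with h | h
      · exact absurd h hc.2
      · exact h
    · rw [card_image_of_injOn (hinj.mono (by simp))]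
      have h1 := card_sdiff_add_card_inter C C'
      have h2 := card_sdiff_add_card_inter C' C
      rw [inter_comm] at h2
      omega
  -- the family of optimal covers
  set F : Finset (Finset V) := univ.filter
    (fun C' => IsCover (G m) C' ∧ C'.card = coverNumber (G m)) with hF
  set U : Finset (Finset V) → Finset V := fun S => S.biUnion (fun C' => C \ C') with hU
  have hopt : optUnion (G m) ⊆ C ∪ (U F).image p := by
    intro v hv
    simp only [optUnion, mem_filter, mem_univ, true_and] at hv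
    obtain ⟨C', hC', hCc', hv⟩ := hv
    rw [mem_union]
    by_cases hvC : v ∈ C
    · exact Or.inl hvC
    · right
      have : v ∈ C' \ C := mem_sdiff.2 ⟨hv, hvC⟩
      rw [hswap C' hC' hCc', mem_image] at this
      obtain ⟨c, hc, rfl⟩ := this
      refine mem_image_of_mem p ?_
      rw [hU]
      refine mem_biUnion.2 ⟨C', ?_, hc⟩
      rw [hF, mem_filter]
      exact ⟨mem_univ _, hC', hCc'⟩
  have hcard : ((optUnion (G m)).card : ℝ) ≤ C.card + (U F).card := by
    have h1 := (card_le_card hopt).trans (card_union_le _ _)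
    have h2 : ((U F).image p).card ≤ (U F).card := card_image_le
    exact_mod_cast (by omega : (optUnion (G m)).card ≤ C.card + (U F).card)
  by_contra hcon
  push Not at hcon
  have hbig : θ * n ≤ ((U F).card : ℝ) := by linarith
  -- a subfamily of intermediate size
  have hmid : ∃ S ⊆ F, θ * n ≤ ((U S).card : ℝ) ∧ ((U S).card : ℝ) ≤ (θ + θ / 4) * n := by
    have key : ∀ S : Finset (Finset V), S ⊆ F → θ * n ≤ ((U S).card : ℝ) →
        ∃ S' ⊆ F, θ * n ≤ ((U S').card : ℝ) ∧ ((U S').card : ℝ) ≤ (θ + θ / 4) * n := by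
      intro S
      induction S using Finset.induction_on with
      | empty =>
        intro _ h0
        have : (U ∅).card = 0 := by simp [hU]
        rw [this] at h0
        exfalso
        have : 0 < θ * n := by positivity
        simp at h0
        linarith
      | insert C' S hnot ih =>
        intro hS hSb
        by_cases hs : θ * n ≤ ((U S).card : ℝ)
        · exact ih ((subset_insert _ _).trans hS) hs
        · push Not at hs
          refine ⟨insert C' S, hS, hSb, ?_⟩
          have h1 : U (insert C' S) = (C \ C') ∪ U S := by simp [hU]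
          have h2 : (U (insert C' S)).card ≤ (C \ C').card + (U S).card := by
            rw [h1]; exact card_union_le _ _
          have h3 : ((U (insert C' S)).card : ℝ) ≤ (C \ C').card + (U S).card := by
            exact_mod_cast h2
          have hC'F : C' ∈ F := hS (mem_insert_self _ _)
          rw [hF, mem_filter] at hC'F
          have h4 : ((C \ C').card : ℝ) ≤ θ / 4 * n := by
            refine h.stability hθ hθ1 hn (hC.mono (h.mono (by omega)))
              (hC'F.2.1.mono (h.mono (by omega))) hCn ?_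
            rw [hC'F.2.2]; exact hhalf m
          linarith
    exact key F (Subset.refl F) hbig
  obtain ⟨S, hSF, hS1, hS2⟩ := hmid
  set A := U S with hA
  set Y := Cᶜ \ A.image p with hY
  have hAC : A ⊆ C := by
    intro a ha
    rw [hA, hU] at ha
    obtain ⟨C', -, ha⟩ := mem_biUnion.1 ha
    exact (mem_sdiff.1 ha).1
  have hno : ∀ a ∈ A, ∀ y ∈ Y, ¬ (G m).Adj a y := by
    intro a ha y hy hadj
    rw [hY, mem_sdiff, mem_compl] at hy
    have ha' := ha
    rw [hA, hU] at ha
    obtain ⟨C', hC'S, ha⟩ := mem_biUnion.1 ha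
    have hC'F := hSF hC'S
    rw [hF, mem_filter] at hC'F
    have hyC' : y ∈ C' := by
      rcases hC'F.2.1 a y hadj with h | h
      · exact absurd h (mem_sdiff.1 ha).2
      · exact h
    have : y ∈ C' \ C := mem_sdiff.2 ⟨hyC', hy.1⟩
    rw [hswap C' hC'F.2.1 hC'F.2.2, mem_image] at this
    obtain ⟨c, hc, rfl⟩ := this
    refine hy.2 (mem_image_of_mem p ?_)
    rw [hA, hU]
    exact mem_biUnion.2 ⟨C', hC'S, hc⟩
  have hno' : ∀ a ∈ A, ∀ y ∈ Y, ¬ (G ((2 + 1) * (2 * t))).Adj a y := by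
    intro a ha y hy hadj
    exact hno a ha y hy (h.mono (by omega) hadj)
  have hwin := h.win 2 (by norm_num) A Y hno'
  have hYc : n / 4 ≤ (Y.card : ℝ) - 1 := by
    have h1 : Cᶜ.card ≤ Y.card + (A.image p).card := by
      have := card_le_card_sdiff_add_card (s := Cᶜ) (t := A.image p)
      rw [← hY] at this
      exact this
    have h2 : (A.image p).card ≤ A.card := card_image_le
    have h3 := card_compl C
    have h4 := card_le_univ C
    have h5 : n ≤ Y.card + A.card + C.card := by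
      rw [hnn]
      exact_mod_cast (by omega : Fintype.card V ≤ Y.card + A.card + C.card)
    have h6 : (θ + θ / 4) * n ≤ 5 / 32 * n := by
      apply mul_le_mul_of_nonneg_right _ (by linarith)
      linarith
    linarith
  have hall : (Ico (2 * (2 * t)) ((2 + 1) * (2 * t))).filter
      (fun i => θ ^ 2 / 64 * n ^ 2 ≤ ((acc A Y (G i)).card : ℝ)) =
      Ico (2 * (2 * t)) ((2 + 1) * (2 * t)) := by
    refine filter_true_of_mem ?_
    intro i hi
    rw [mem_Ico] at hi
    obtain ⟨Ci, hCi, hCic⟩ := exists_min_cover (G i)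
    have h1 : ((C \ Ci).card : ℝ) ≤ θ / 4 * n := by
      refine h.stability hθ hθ1 hn (hC.mono (h.mono (by omega))) (hCi.mono (h.mono (by omega)))
        hCn ?_
      rw [hCic]; exact hhalf i
    have h2 : (A.card : ℝ) ≤ (A ∩ optUnion (G i)).card + (C \ Ci).card := by
      have : A ⊆ (A ∩ optUnion (G i)) ∪ (C \ Ci) := by
        intro a ha
        rw [mem_union, mem_inter, mem_sdiff]
        by_cases haC : a ∈ Ci
        · exact Or.inl ⟨ha, subset_optUnion hCi hCic haC⟩
        · exact Or.inr ⟨hAC ha, haC⟩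
      exact_mod_cast (card_le_card this).trans (card_union_le _ _)
    have h3 : 3 / 4 * θ * n ≤ ((A ∩ optUnion (G i)).card : ℝ) := by linarith
    have h4 := acc_of_optUnion (h.koenig i) A Y
    have h5 : 3 / 4 * θ * n * (n / 4) ≤ ((A ∩ optUnion (G i)).card : ℝ) * ((Y.card : ℝ) - 1) :=
      mul_le_mul h3 hYc (by linarith) (by positivity)
    have h6 : θ ^ 2 / 64 * n ^ 2 ≤ θ / 512 * n ^ 2 := by
      apply mul_le_mul_of_nonneg_right _ (by positivity)
      nlinarith
    have h7 : (0:ℝ) < θ * n ^ 2 := by positivity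
    nlinarith [h4, h5, h6, h7]
  rw [hall, Nat.card_Ico] at hwin
  omega

theorem Good.lower {G : ℕ → SimpleGraph V} {t : ℕ} {θ : ℝ}
    (hn : 8 ≤ θ * (Fintype.card V : ℝ))
    (h : Good G t (θ ^ 2 / 64)) {m : ℕ} (hm : 6 * t ≤ m) :
    (1 / 2 - θ) * (Fintype.card V : ℝ) ≤ ((optUnion (G m)).card : ℝ) := by
  have h1 := h.matching_large hn (m := m) (by omega)
  have h2 := coverNumber_le_card_optUnion (G m)
  rw [h.koenig m] at h2
  have h3 : (matchingNumber (G m) : ℝ) ≤ (optUnion (G m)).card := by exact_mod_cast h2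
  linarith

end Pool.Agent.KonigProcess
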