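import Mathlib

set_option linter.unusedSectionVars false

open Finset

namespace Pool.Agent.KonigProcess

variable {E : Type*} [Fintype E] [DecidableEq E] {N : ℕ}

/-- The first `j` elements of an ordering, most recent first. -/
def hist (σ : Fin N ≃ E) : ℕ → List E
  | 0 => []
  | j + 1 => if h : j < N then σ ⟨j, h⟩ :: hist σ j else hist σ j

theorem hist_succ (σ : Fin N ≃ E) {j : ℕ} (h : j < N) :
    hist σ (j + 1) = σ ⟨j, h⟩ :: hist σ j := by
  simp [hist, h]

theorem hist_succ' (σ : Fin N ≃ E) {j : ℕ} (h : ¬ j < N) :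
    hist σ (j + 1) = hist σ j := by
  simp [hist, h]

theorem length_hist (σ : Fin N ≃ E) : ∀ {j : ℕ}, j ≤ N → (hist σ j).length = j
  | 0, _ => rfl
  | j + 1, h => by
    rw [hist_succ σ (by omega), List.length_cons, length_hist σ (by omega)]

theorem mem_hist (σ : Fin N ≃ E) : ∀ {j : ℕ}, j ≤ N → ∀ e, e ∈ hist σ j ↔ (σ.symm e : ℕ) < j
  | 0, _, e => by simp [hist]
  | j + 1, h, e => by
    rw [hist_succ σ (by omega), List.mem_cons, mem_hist σ (by omega) e]
    constructor
    · rintro (rfl | h')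
      · simp
      · omega
    · intro h'
      rcases Nat.lt_succ_iff_lt_or_eq.1 h' with h'' | h''
      · exact Or.inr h''
      · left
        have : σ.symm e = ⟨j, by omega⟩ := Fin.ext h''
        rw [← this, Equiv.apply_symm_apply]

theorem nodup_hist (σ : Fin N ≃ E) : ∀ {j : ℕ}, j ≤ N → (hist σ j).Nodup
  | 0, _ => by simp [hist]
  | j + 1, h => by
    rw [hist_succ σ (by omega), List.nodup_cons]
    refine ⟨?_, nodup_hist σ (by omega)⟩
    rw [mem_hist σ (by omega)]
    simp

theorem hist_congr (σ τ : Fin N ≃ E) : ∀ {j : ℕ}, j ≤ N →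
    (∀ i : Fin N, (i : ℕ) < j → σ i = τ i) → hist σ j = hist τ j
  | 0, _, _ => rfl
  | j + 1, hj, h => by
    rw [hist_succ σ (by omega), hist_succ τ (by omega), h ⟨j, by omega⟩ (by simp),
      hist_congr σ τ (by omega) (fun i hi => h i (by omega))]

theorem hist_swap (σ : Fin N ≃ E) {j : ℕ} (hj : j < N) (t : Fin N) (ht : j ≤ (t : ℕ)) :
    hist ((Equiv.swap ⟨j, hj⟩ t).trans σ) j = hist σ j := by
  refine hist_congr _ _ (by omega) ?_
  intro i hi
  have h1 : i ≠ ⟨j, hj⟩ := by
    rintro rfl; simp at hi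
  have h2 : i ≠ t := by
    rintro rfl; omega
  simp [Equiv.swap_apply_of_ne_of_ne h1 h2]

theorem sum_exchange (F : List E → E → ℝ) {j : ℕ} (hj : j < N) (t : Fin N) (ht : j ≤ (t : ℕ)) :
    ∑ σ : Fin N ≃ E, F (hist σ j) (σ t) = ∑ σ : Fin N ≃ E, F (hist σ j) (σ ⟨j, hj⟩) := by
  refine Fintype.sum_equiv ((Equiv.swap ⟨j, hj⟩ t).equivCongr (Equiv.refl E)) _ _ ?_
  intro σ
  have h1 : ((Equiv.swap ⟨j, hj⟩ t).equivCongr (Equiv.refl E)) σ =
      (Equiv.swap ⟨j, hj⟩ t).trans σ := by
    ext i; simp [Equiv.equivCongr]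
  rw [h1, hist_swap σ hj t ht]
  simp

theorem sum_hist_succ_le (f : List E → ℝ) {j : ℕ} (hj : j < N)
    (hf : ∀ l : List E, l.Nodup → l.length = j →
      ∑ e ∈ univ.filter (fun e => e ∉ l), f (e :: l) ≤ ((N : ℝ) - l.length) * f l) :
    ∑ σ : Fin N ≃ E, f (hist σ (j + 1)) ≤ ∑ σ : Fin N ≃ E, f (hist σ j) := by
  have h1 : ((N : ℝ) - j) * ∑ σ : Fin N ≃ E, f (hist σ (j + 1)) =
      ∑ t ∈ (univ : Finset (Fin N)).filter (fun t : Fin N => j ≤ (t : ℕ)),
        ∑ σ : Fin N ≃ E, f (σ t :: hist σ j) := by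
    have h2 : ∀ t ∈ (univ : Finset (Fin N)).filter (fun t : Fin N => j ≤ (t : ℕ)),
        ∑ σ : Fin N ≃ E, f (σ t :: hist σ j) = ∑ σ : Fin N ≃ E, f (hist σ (j + 1)) := by
      intro t ht
      rw [mem_filter] at ht
      rw [sum_exchange (fun l e => f (e :: l)) hj t ht.2]
      refine sum_congr rfl ?_
      intro σ _
      rw [hist_succ σ hj]
    rw [sum_congr rfl h2, sum_const, nsmul_eq_mul]
    congr 1
    have h3 : ((univ : Finset (Fin N)).filter (fun t : Fin N => j ≤ (t : ℕ))).card = N - j := by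
      have : (univ : Finset (Fin N)).filter (fun t : Fin N => j ≤ (t : ℕ)) = Finset.Ici ⟨j, hj⟩ := by
        ext t; simp [Fin.le_def]
      rw [this, Fin.card_Ici]
    rw [h3, Nat.cast_sub hj.le]
  have h4 : ∑ t ∈ (univ : Finset (Fin N)).filter (fun t : Fin N => j ≤ (t : ℕ)),
        ∑ σ : Fin N ≃ E, f (σ t :: hist σ j) =
      ∑ σ : Fin N ≃ E, ∑ e ∈ univ.filter (fun e => e ∉ hist σ j), f (e :: hist σ j) := by
    rw [sum_comm]
    refine sum_congr rfl ?_
    intro σ _
    refine sum_bij (fun t _ => σ t) ?_ ?_ ?_ ?_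
    · intro t ht
      rw [mem_filter] at ht ⊢
      refine ⟨mem_univ _, ?_⟩
      rw [mem_hist σ hj.le, Equiv.symm_apply_apply]
      omega
    · intro t _ t' _ h
      exact σ.injective h
    · intro e he
      rw [mem_filter, mem_hist σ hj.le] at he
      refine ⟨σ.symm e, ?_, by simp⟩
      rw [mem_filter]
      exact ⟨mem_univ _, by omega⟩
    · intro t _; rfl
  have h5 : ∑ σ : Fin N ≃ E, ∑ e ∈ univ.filter (fun e => e ∉ hist σ j), f (e :: hist σ j) ≤
      ((N : ℝ) - j) * ∑ σ : Fin N ≃ E, f (hist σ j) := by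
    rw [mul_sum]
    refine sum_le_sum ?_
    intro σ _
    have := hf (hist σ j) (nodup_hist σ hj.le) (length_hist σ hj.le)
    rwa [length_hist σ hj.le] at this
  have hpos : (0 : ℝ) < (N : ℝ) - j := by
    have : (j : ℝ) < N := by exact_mod_cast hj
    linarith
  rw [← h4, ← h1] at h5
  exact le_of_mul_le_mul_left h5 hpos

theorem sum_hist_le (f : List E → ℝ) :
    ∀ {s : ℕ}, s ≤ N →
    (∀ l : List E, l.Nodup → l.length < s →
      ∑ e ∈ univ.filter (fun e => e ∉ l), f (e :: l) ≤ ((N : ℝ) - l.length) * f l) →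
    ∑ σ : Fin N ≃ E, f (hist σ s) ≤ (Fintype.card (Fin N ≃ E) : ℝ) * f []
  | 0, _, _ => by simp [hist]
  | s + 1, hs, hf => by
    refine (sum_hist_succ_le f (by omega) ?_).trans
      (sum_hist_le f (by omega) (fun l hl hls => hf l hl (by omega)))
    intro l hl hls
    exact hf l hl (by omega)

open Classical in
/-- The weight of a history. -/
noncomputable def wt (act : List E → Prop) (S : List E → Finset E) (p : ℝ) (a : ℕ) :
    List E → ℝ
  | [] => 1
  | e :: l => wt act S p a l *
      (if a ≤ l.length ∧ act l then (if e ∈ S l then 0 else (1 - p)⁻¹) else 1)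

theorem wt_nonneg (act : List E → Prop) (S : List E → Finset E) {p : ℝ} (hp : p < 1) (a : ℕ) :
    ∀ l, 0 ≤ wt act S p a l
  | [] => by simp [wt]
  | e :: l => by
    unfold wt
    have h1 := wt_nonneg act S hp a l
    have h2 : 0 ≤ (1 - p)⁻¹ := inv_nonneg.2 (by linarith)
    split_ifs
    · simp
    · positivity
    · simpa using h1

open Classical in
theorem wt_hist (act : List E → Prop) (S : List E → Finset E) (p : ℝ) (a : ℕ)
    (σ : Fin N ≃ E) : ∀ {j : ℕ}, j ≤ N →
    (∀ i (hi : i < N), a ≤ i → i < j → act (hist σ i) → σ ⟨i, hi⟩ ∉ S (hist σ i)) →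
    wt act S p a (hist σ j) = ((1 - p)⁻¹) ^ ((Ico a j).filter (fun i => act (hist σ i))).card
  | 0, _, _ => by simp [hist, wt]
  | j + 1, hj, h => by
    rw [hist_succ σ (by omega)]
    unfold wt
    rw [wt_hist act S p a σ (by omega) (fun i hi hai hij => h i hi hai (by omega)),
      length_hist σ (by omega)]
    by_cases haj : a ≤ j
    · have h1 : Ico a (j + 1) = insert j (Ico a j) := by
        ext i; simp only [mem_Ico, mem_insert]; omega
      rw [h1, filter_insert]
      by_cases hact : act (hist σ j)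
      · rw [if_pos ⟨haj, hact⟩, if_neg (h j (by omega) haj (by omega) hact), if_pos hact,
          card_insert_of_notMem (by simp), pow_succ]
      · rw [if_neg (fun h => hact h.2), if_neg hact, mul_one]
    · have h1 : Ico a (j + 1) = Ico a j := by
        ext i; simp only [mem_Ico]; omega
      rw [h1, if_neg (fun h => haj h.1), mul_one]

open Classical in
/-- The zero-success bound. -/
theorem zero_success (hN : Fintype.card E = N) (act : List E → Prop) (S : List E → Finset E)
    {p : ℝ} (hp0 : 0 ≤ p) (hp1 : p < 1) {a b : ℕ} (hb : b ≤ N)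
    (hS : ∀ l : List E, l.Nodup → a ≤ l.length → l.length < b → act l →
      p * ((N : ℝ) - l.length) ≤ (((S l).filter (fun e => e ∉ l)).card : ℝ)) (t : ℕ) :
    ((univ.filter (fun σ : Fin N ≃ E =>
      (∀ i (hi : i < N), a ≤ i → i < b → act (hist σ i) → σ ⟨i, hi⟩ ∉ S (hist σ i)) ∧
      t ≤ ((Ico a b).filter (fun i => act (hist σ i))).card)).card : ℝ) ≤
    (1 - p) ^ t * (Fintype.card (Fin N ≃ E) : ℝ) := by
  set B := univ.filter (fun σ : Fin N ≃ E =>
      (∀ i (hi : i < N), a ≤ i → i < b → act (hist σ i) → σ ⟨i, hi⟩ ∉ S (hist σ i)) ∧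
      t ≤ ((Ico a b).filter (fun i => act (hist σ i))).card) with hB
  have hq : 0 < 1 - p := by linarith
  have hq1 : 1 ≤ (1 - p)⁻¹ := (one_le_inv₀ hq).2 (by linarith)
  have hcardE : ∀ l : List E, l.Nodup → ((univ.filter (fun e => e ∉ l)).card : ℝ) =
      (N : ℝ) - l.length := by
    intro l hl
    have h1 : univ.filter (fun e => e ∉ l) = (l.toFinset)ᶜ := by
      ext e; simp
    have h2 : l.toFinset.card = l.length := List.toFinset_card_of_nodup hl
    have h3 := card_le_univ l.toFinset
    rw [h1, card_compl, Nat.cast_sub h3, h2, hN]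
  have h1 := sum_hist_le (wt act S p a) hb (by
    intro l hl hls
    by_cases hact : a ≤ l.length ∧ act l
    · have h2 : ∑ e ∈ univ.filter (fun e => e ∉ l), wt act S p a (e :: l) =
          wt act S p a l * ((1 - p)⁻¹ *
            ((univ.filter (fun e => e ∉ l)).filter (fun e => e ∉ S l)).card) := by
        have h3 : ∀ e ∈ univ.filter (fun e => e ∉ l), wt act S p a (e :: l) =
            wt act S p a l * ((1 - p)⁻¹ * (if e ∉ S l then 1 else 0)) := by
          intro e _
          rw [wt, if_pos hact]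
          split_ifs <;> simp_all
        rw [sum_congr rfl h3, ← mul_sum, ← mul_sum, card_filter]
        push_cast
        rfl
      rw [h2]
      have h4 : (((univ.filter (fun e => e ∉ l)).filter (fun e => e ∉ S l)).card : ℝ) ≤
          (1 - p) * ((N : ℝ) - l.length) := by
        have h5 := card_filter_add_card_filter_not (s := univ.filter (fun e => e ∉ l))
          (fun e => e ∈ S l)
        have h6 : (univ.filter (fun e => e ∉ l)).filter (fun e => e ∈ S l) =
            (S l).filter (fun e => e ∉ l) := by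
          ext e; simp [and_comm]
        rw [h6] at h5
        have h7 := hS l hl hact.1 hls hact.2
        have h8 := hcardE l hl
        have h9 : (((S l).filter (fun e => e ∉ l)).card : ℝ) +
            ((univ.filter (fun e => e ∉ l)).filter (fun e => e ∉ S l)).card =
            (univ.filter (fun e => e ∉ l)).card := by exact_mod_cast h5
        linarith
      have h10 : (1 - p)⁻¹ *
            (((univ.filter (fun e => e ∉ l)).filter (fun e => e ∉ S l)).card : ℝ) ≤
            (N : ℝ) - l.length := by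
        calc _ ≤ (1 - p)⁻¹ * ((1 - p) * ((N : ℝ) - l.length)) :=
              mul_le_mul_of_nonneg_left h4 (by positivity)
          _ = (N : ℝ) - l.length := by field_simp
      calc _ ≤ wt act S p a l * ((N : ℝ) - l.length) :=
            mul_le_mul_of_nonneg_left h10 (wt_nonneg act S hp1 a l)
        _ = _ := by ring
    · have h3 : ∀ e ∈ univ.filter (fun e => e ∉ l), wt act S p a (e :: l) =
            wt act S p a l := by
          intro e _
          rw [wt, if_neg hact, mul_one]
      rw [sum_congr rfl h3, sum_const, nsmul_eq_mul, hcardE l hl])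
  have h2 : (B.card : ℝ) * ((1 - p)⁻¹) ^ t ≤ ∑ σ : Fin N ≃ E, wt act S p a (hist σ b) := by
    calc (B.card : ℝ) * ((1 - p)⁻¹) ^ t = ∑ σ ∈ B, ((1 - p)⁻¹) ^ t := by
          rw [sum_const, nsmul_eq_mul]
      _ ≤ ∑ σ ∈ B, wt act S p a (hist σ b) := by
          refine sum_le_sum ?_
          intro σ hσ
          rw [hB, mem_filter] at hσ
          rw [wt_hist act S p a σ hb hσ.2.1]
          exact pow_le_pow_right₀ hq1 hσ.2.2
      _ ≤ ∑ σ : Fin N ≃ E, wt act S p a (hist σ b) :=
          sum_le_sum_of_subset_of_nonneg (subset_univ _)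
            (fun σ _ _ => wt_nonneg act S hp1 a _)
  have h3 : (wt act S p a []) = 1 := rfl
  rw [h3, mul_one] at h1
  have h4 := h2.trans h1
  have h5 : 0 < (1 - p) ^ t := by positivity
  have h6 : ((1 - p)⁻¹) ^ t * (1 - p) ^ t = 1 := by
    rw [← mul_pow, inv_mul_cancel₀ hq.ne', one_pow]
  calc (B.card : ℝ) = (B.card : ℝ) * ((1 - p)⁻¹) ^ t * (1 - p) ^ t := by
        rw [mul_assoc, h6, mul_one]
    _ ≤ (Fintype.card (Fin N ≃ E) : ℝ) * (1 - p) ^ t :=
        mul_le_mul_of_nonneg_right h4 h5.le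
    _ = _ := by ring

end Pool.Agent.KonigProcess
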