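import Mathlib
import Pool.Agent.Helper92_KP.Det
import Pool.Agent.Helper92_KP.Prob

open Finset Filter

namespace Pool.Agent.KonigProcess

section

variable {V : Type*} [Fintype V] [DecidableEq V]

/-- The graph reached after a history (most recent edge first). -/
noncomputable def graphOf : List (Pair V) → SimpleGraph V
  | [] => ⊥
  | e :: l => stepGraph (graphOf l) e

theorem koenig_graphOf : ∀ l : List (Pair V),
    coverNumber (graphOf l) = matchingNumber (graphOf l)
  | [] => by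
    show coverNumber (⊥ : SimpleGraph V) = matchingNumber (⊥ : SimpleGraph V)
    rw [coverNumber_bot, matchingNumber_bot]
  | e :: l => koenig_step (koenig_graphOf l) e

end

theorem process_eq {n : ℕ} (σ : Ordering n) : ∀ m, process σ m = graphOf (hist σ m)
  | 0 => rfl
  | m + 1 => by
    by_cases h : m < n.choose 2
    · rw [hist_succ σ h]
      show _ = stepGraph (graphOf (hist σ m)) (σ ⟨m, h⟩)
      rw [process, dif_pos h, process_eq σ m]
    · rw [hist_succ' σ h, process, dif_neg h, process_eq σ m]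

theorem process_mono {n : ℕ} (σ : Ordering n) : Monotone (process σ) := by
  refine monotone_nat_of_le_succ ?_
  intro m
  rw [process]
  split_ifs
  · exact le_stepGraph _ _
  · exact le_rfl

theorem process_koenig {n : ℕ} (σ : Ordering n) (m : ℕ) :
    coverNumber (process σ m) = matchingNumber (process σ m) := by
  rw [process_eq]; exact koenig_graphOf _

theorem process_succ {n : ℕ} (σ : Ordering n) {m : ℕ} (h : m < n.choose 2) :
    process σ (m + 1) = stepGraph (process σ m) (σ ⟨m, h⟩) := by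
  rw [process, dif_pos h]

theorem card_pair (n : ℕ) : Fintype.card (Pair (Fin n)) = n.choose 2 := by
  have := Sym2.card_subtype_not_diag (α := Fin n)
  rw [Fintype.card_fin] at this
  rw [← this]

open Classical in
/-- The bad event for a pair of sets and a window. -/
noncomputable def badSet (n : ℕ) (κ : ℝ) (t a b : ℕ) (A Y : Finset (Fin n)) :
    Finset (Ordering n) :=
  univ.filter (fun σ => (∀ x ∈ A, ∀ y ∈ Y, ¬ (process σ b).Adj x y) ∧
    t ≤ ((Ico a b).filter
      (fun i => κ * (n : ℝ) ^ 2 ≤ ((acc A Y (process σ i)).card : ℝ))).card)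

theorem badSet_card {n : ℕ} {κ : ℝ} (hκ0 : 0 ≤ κ) (hκ1 : κ < 1) {t a b : ℕ}
    (hb : b ≤ n.choose 2) (hbκ : (b : ℝ) ≤ κ * (n : ℝ) ^ 2 / 2) (A Y : Finset (Fin n)) :
    ((badSet n κ t a b A Y).card : ℝ) ≤
      (1 - κ) ^ t * (Fintype.card (Ordering n) : ℝ) := by
  classical
  have hz := zero_success (E := Pair (Fin n)) (N := n.choose 2) (card_pair n)
    (fun l => κ * (n : ℝ) ^ 2 ≤ ((acc A Y (graphOf l)).card : ℝ))
    (fun l => acc A Y (graphOf l)) hκ0 hκ1 (a := a) hb (by
      intro l hl _ hlb hact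
      have h1 : (acc A Y (graphOf l)).card ≤
          ((acc A Y (graphOf l)).filter (fun e => e ∉ l)).card + l.length := by
        have h2 := card_filter_add_card_filter_not (s := acc A Y (graphOf l)) (fun e => e ∈ l)
        have h3 : ((acc A Y (graphOf l)).filter (fun e => e ∈ l)).card ≤ l.length := by
          have : (acc A Y (graphOf l)).filter (fun e => e ∈ l) ⊆ l.toFinset := by
            intro e he
            simpa using (mem_filter.1 he).2
          exact (card_le_card this).trans (List.toFinset_card_le l)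
        omega
      have h1' : ((acc A Y (graphOf l)).card : ℝ) ≤
          ((acc A Y (graphOf l)).filter (fun e => e ∉ l)).card + l.length := by
        exact_mod_cast h1
      have h4 : (l.length : ℝ) ≤ b := by exact_mod_cast hlb.le
      have h5 : ((n.choose 2 : ℕ) : ℝ) ≤ (n : ℝ) ^ 2 / 2 := by
        rw [Nat.cast_choose_two]
        have : (0 : ℝ) ≤ n := by positivity
        nlinarith
      have h6 : κ * (((n.choose 2 : ℕ) : ℝ) - l.length) ≤ κ * ((n : ℝ) ^ 2 / 2) := by
        apply mul_le_mul_of_nonneg_left _ hκ0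
        have : (0 : ℝ) ≤ l.length := by positivity
        linarith
      have key : κ * (((n.choose 2 : ℕ) : ℝ) - l.length) ≤
          (((acc A Y (graphOf l)).filter (fun e => e ∉ l)).card : ℝ) := by linarith
      convert key) t
  refine le_trans ?_ hz
  have hsub : badSet n κ t a b A Y ⊆ univ.filter (fun σ : Ordering n =>
      (∀ i (hi : i < n.choose 2), a ≤ i → i < b →
        κ * (n : ℝ) ^ 2 ≤ ((acc A Y (graphOf (hist σ i))).card : ℝ) →
        σ ⟨i, hi⟩ ∉ acc A Y (graphOf (hist σ i))) ∧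
      t ≤ ((Ico a b).filter
        (fun i => κ * (n : ℝ) ^ 2 ≤ ((acc A Y (graphOf (hist σ i))).card : ℝ))).card) := by
    intro σ hσ
    rw [badSet, mem_filter] at hσ
    rw [mem_filter]
    refine ⟨mem_univ _, ?_, ?_⟩
    · intro i hi _ hib _ hmem
      rw [mem_acc, ← process_eq] at hmem
      obtain ⟨hacc, x, hx, y, hy, hxy⟩ := hmem
      refine hσ.2.1 x hx y hy (process_mono σ (show i + 1 ≤ b by omega) ?_)
      rw [process_succ σ hi, stepGraph, if_pos hacc, addEdge_adj]
      exact Or.inr hxy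
    · have := hσ.2.2
      simp_rw [process_eq] at this
      exact this
  exact_mod_cast card_le_card hsub

open Classical in
theorem bad_union {n : ℕ} {κ : ℝ} (hκ0 : 0 ≤ κ) (hκ1 : κ < 1) {t : ℕ}
    (hb : 6 * t ≤ n.choose 2) (hbκ : ((6 * t : ℕ) : ℝ) ≤ κ * (n : ℝ) ^ 2 / 2) :
    ((univ.filter (fun σ : Ordering n => ¬ Good (process σ) t κ)).card : ℝ) ≤
      3 * (4 : ℝ) ^ n * (1 - κ) ^ t * (Fintype.card (Ordering n) : ℝ) := by
  have hsub : univ.filter (fun σ : Ordering n => ¬ Good (process σ) t κ) ⊆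
      (range 3).biUnion (fun w => (univ : Finset (Finset (Fin n))).biUnion (fun A =>
        (univ : Finset (Finset (Fin n))).biUnion (fun Y =>
          badSet n κ t (w * (2 * t)) ((w + 1) * (2 * t)) A Y))) := by
    intro σ hσ
    rw [mem_filter] at hσ
    by_contra hcon
    refine hσ.2 ⟨process_koenig σ, process_mono σ, ?_⟩
    intro w hw A Y hAY
    by_contra hge
    push Not at hge
    refine hcon ?_
    rw [mem_biUnion]
    refine ⟨w, mem_range.2 hw, ?_⟩
    rw [mem_biUnion]
    refine ⟨A, mem_univ _, ?_⟩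
    rw [mem_biUnion]
    refine ⟨Y, mem_univ _, ?_⟩
    rw [badSet, mem_filter]
    refine ⟨mem_univ _, hAY, ?_⟩
    rw [Fintype.card_fin] at hge
    exact hge
  have h1 := card_le_card hsub
  have h2 : ((range 3).biUnion (fun w => (univ : Finset (Finset (Fin n))).biUnion (fun A =>
        (univ : Finset (Finset (Fin n))).biUnion (fun Y =>
          badSet n κ t (w * (2 * t)) ((w + 1) * (2 * t)) A Y)))).card ≤
      ∑ w ∈ range 3, ∑ A : Finset (Fin n), ∑ Y : Finset (Fin n),
        (badSet n κ t (w * (2 * t)) ((w + 1) * (2 * t)) A Y).card := by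
    refine card_biUnion_le.trans (sum_le_sum ?_)
    intro w _
    refine card_biUnion_le.trans (sum_le_sum ?_)
    intro A _
    exact card_biUnion_le
  have h3 : ((univ.filter (fun σ : Ordering n => ¬ Good (process σ) t κ)).card : ℝ) ≤
      ∑ w ∈ range 3, ∑ A : Finset (Fin n), ∑ Y : Finset (Fin n),
        ((badSet n κ t (w * (2 * t)) ((w + 1) * (2 * t)) A Y).card : ℝ) := by
    exact_mod_cast h1.trans h2
  refine h3.trans ?_
  have h4 : ∀ w ∈ range 3, ∑ A : Finset (Fin n), ∑ Y : Finset (Fin n),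
        ((badSet n κ t (w * (2 * t)) ((w + 1) * (2 * t)) A Y).card : ℝ) ≤
      ∑ A : Finset (Fin n), ∑ Y : Finset (Fin n),
        (1 - κ) ^ t * (Fintype.card (Ordering n) : ℝ) := by
    intro w hw
    rw [mem_range] at hw
    refine sum_le_sum (fun A _ => sum_le_sum (fun Y _ => ?_))
    have hw6 : (w + 1) * (2 * t) ≤ 6 * t := by
      have : w + 1 ≤ 3 := hw
      calc (w + 1) * (2 * t) ≤ 3 * (2 * t) := Nat.mul_le_mul_right _ this
        _ = 6 * t := by ring
    refine badSet_card hκ0 hκ1 (hw6.trans hb) ?_ A Y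
    refine le_trans ?_ hbκ
    exact_mod_cast hw6
  refine (sum_le_sum h4).trans (le_of_eq ?_)
  simp only [sum_const, card_univ, nsmul_eq_mul, card_range, Fintype.card_finset,
    Fintype.card_fin]
  have : (4 : ℝ) ^ n = 2 ^ n * 2 ^ n := by
    rw [← mul_pow]; norm_num
  rw [this]
  push_cast
  ring

/-- The quantitative theorem. -/
theorem quantitative {n : ℕ} {θ : ℝ} (hθ : 0 < θ) (hθ1 : θ ≤ 1 / 8)
    (hn : 160000 / θ ^ 4 ≤ (n : ℝ)) :
    1 - Real.exp (-(n : ℝ)) ≤
      prob n (fun σ => ∀ m : ℕ, 1200 * (n : ℝ) / θ ^ 2 ≤ (m : ℝ) →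
        |((D σ m).card : ℝ) - (n : ℝ) / 2| ≤ θ * n) := by
  classical
  set κ : ℝ := θ ^ 2 / 64 with hκ
  have hκ0 : 0 < κ := by positivity
  have hκ1 : κ ≤ 1 / 4096 := by
    rw [hκ]
    have : θ ^ 2 ≤ (1 / 8) ^ 2 := pow_le_pow_left₀ hθ.le hθ1 2
    linarith
  have hθ4 : 0 < θ ^ 4 := by positivity
  have hn' : 160000 ≤ (n : ℝ) * θ ^ 4 := by
    rwa [div_le_iff₀ hθ4] at hn
  have hθ4' : θ ^ 4 ≤ 1 / 4096 := by
    have : θ ^ 4 ≤ (1 / 8) ^ 4 := pow_le_pow_left₀ hθ.le hθ1 4
    linarith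
  have hn0 : (0 : ℝ) ≤ n := by positivity
  have hnbig : 160000 ≤ (n : ℝ) := by nlinarith
  have hθ3 : θ ^ 4 ≤ θ := by
    have : θ ^ 3 ≤ 1 := pow_le_one₀ hθ.le (by linarith)
    calc θ ^ 4 = θ ^ 3 * θ := by ring
      _ ≤ 1 * θ := mul_le_mul_of_nonneg_right this hθ.le
      _ = θ := one_mul θ
  have hn8 : 8 ≤ θ * (Fintype.card (Fin n) : ℝ) := by
    rw [Fintype.card_fin]
    have : (n : ℝ) * θ ^ 4 ≤ n * θ := mul_le_mul_of_nonneg_left hθ3 hn0
    linarith
  set t : ℕ := ⌈3 * (n : ℝ) / κ⌉₊ with ht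
  have ht1 : 3 * (n : ℝ) / κ ≤ t := Nat.le_ceil _
  have ht2 : (t : ℝ) ≤ 3 * (n : ℝ) / κ + 1 := by
    have := Nat.ceil_lt_add_one (show 0 ≤ 3 * (n : ℝ) / κ by positivity)
    exact this.le
  have hnκ : 3 * (n : ℝ) / κ = 192 * n / θ ^ 2 := by
    rw [hκ]; field_simp; norm_num
  have hθ2 : 0 < θ ^ 2 := by positivity
  have hθ2' : θ ^ 2 ≤ 1 / 64 := by
    have : θ ^ 2 ≤ (1 / 8) ^ 2 := pow_le_pow_left₀ hθ.le hθ1 2
    linarith
  have hnn : (n : ℝ) ≤ n / θ ^ 2 := by
    rw [le_div_iff₀ hθ2]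
    nlinarith
  have ht6 : ((6 * t : ℕ) : ℝ) ≤ 1200 * (n : ℝ) / θ ^ 2 := by
    push_cast
    have h1 : 6 * (t : ℝ) ≤ 1152 * (n / θ ^ 2) + 6 := by
      have : 192 * (n : ℝ) / θ ^ 2 = 192 * (n / θ ^ 2) := by ring
      linarith
    have h2 : 1200 * (n : ℝ) / θ ^ 2 = 1200 * (n / θ ^ 2) := by ring
    rw [h2]
    linarith
  have hbκ : ((6 * t : ℕ) : ℝ) ≤ κ * (n : ℝ) ^ 2 / 2 := by
    refine ht6.trans ?_
    rw [hκ, div_le_iff₀ hθ2]
    have : 160000 * (n : ℝ) ≤ n * θ ^ 4 * n := mul_le_mul_of_nonneg_right hn' hn0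
    nlinarith
  have hchoose : ((n.choose 2 : ℕ) : ℝ) = (n : ℝ) * (n - 1) / 2 := Nat.cast_choose_two ℝ n
  have hb : 6 * t ≤ n.choose 2 := by
    have : ((6 * t : ℕ) : ℝ) ≤ ((n.choose 2 : ℕ) : ℝ) := by
      refine hbκ.trans ?_
      rw [hchoose]
      nlinarith
    exact_mod_cast this
  have htpos : 1 ≤ t := by
    have : (0 : ℝ) < t := by
      refine lt_of_lt_of_le ?_ ht1
      have : (0 : ℝ) < n := by linarith
      positivity
    exact_mod_cast this
  have hbad := bad_union hκ0.le (by linarith) hb hbκ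
  have hexp : 3 * (4 : ℝ) ^ n * (1 - κ) ^ t ≤ Real.exp (-(n : ℝ)) := by
    have h1 : (1 - κ) ^ t ≤ Real.exp (-(3 * n : ℝ)) := by
      have h2 : 1 - κ ≤ Real.exp (-κ) := by
        have := Real.add_one_le_exp (-κ)
        linarith
      calc (1 - κ) ^ t ≤ (Real.exp (-κ)) ^ t := pow_le_pow_left₀ (by linarith) h2 t
        _ = Real.exp (-(κ * t)) := by rw [← Real.exp_nat_mul]; ring_nf
        _ ≤ Real.exp (-(3 * n : ℝ)) := by
          apply Real.exp_le_exp.2
          have : 3 * (n : ℝ) ≤ κ * t := by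
            rw [div_le_iff₀ hκ0] at ht1
            linarith
          linarith
    have h3 : (4 : ℝ) ^ n ≤ Real.exp (3 / 2 * n) := by
      have h4 : (4 : ℝ) ≤ Real.exp (3 / 2) := by
        have h5 := Real.quadratic_le_exp_of_nonneg (show (0 : ℝ) ≤ 3 / 2 by norm_num)
        have h6 : (2.7182818283 : ℝ) < Real.exp 1 := Real.exp_one_gt_d9
        have h7 : Real.exp (3 / 2) = Real.exp 1 * Real.exp (1 / 2) := by
          rw [← Real.exp_add]; norm_num
        have h8 := Real.add_one_le_exp (1 / 2 : ℝ)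
        rw [h7]
        nlinarith [Real.exp_pos 1]
      calc (4 : ℝ) ^ n ≤ (Real.exp (3 / 2)) ^ n := pow_le_pow_left₀ (by norm_num) h4 n
        _ = Real.exp (3 / 2 * n) := by rw [← Real.exp_nat_mul]; ring_nf
    have h9 : (3 : ℝ) ≤ Real.exp (1 / 2 * n) := by
      have := Real.add_one_le_exp (1 / 2 * (n : ℝ))
      linarith
    calc 3 * (4 : ℝ) ^ n * (1 - κ) ^ t
        ≤ Real.exp (1 / 2 * n) * Real.exp (3 / 2 * n) * Real.exp (-(3 * n : ℝ)) := by
          apply mul_le_mul _ h1 (pow_nonneg (by linarith) t) (by positivity)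
          exact mul_le_mul h9 h3 (by positivity) (by positivity)
      _ = Real.exp (-(n : ℝ)) := by
          rw [← Real.exp_add, ← Real.exp_add]; ring_nf
  -- the good event
  have hgood : ∀ σ : Ordering n, Good (process σ) t κ →
      ∀ m : ℕ, 1200 * (n : ℝ) / θ ^ 2 ≤ (m : ℝ) →
        |((D σ m).card : ℝ) - (n : ℝ) / 2| ≤ θ * n := by
    intro σ hσ m hm
    have hm6 : 6 * t ≤ m := by
      exact_mod_cast ht6.trans hm
    have h1 := hσ.upper hθ hθ1 hn8 htpos hm6
    have h2 := hσ.lower hn8 hm6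
    rw [Fintype.card_fin] at h1 h2
    unfold D
    rw [abs_le]
    constructor <;> linarith
  have hpos : (0 : ℝ) < (Fintype.card (Ordering n) : ℝ) := by
    have : 0 < Fintype.card (Ordering n) := by
      rw [Fintype.card_pos_iff]
      refine ⟨(Fintype.equivFinOfCardEq (card_pair n)).symm⟩
    exact_mod_cast this
  unfold prob
  rw [Nat.card_eq_fintype_card, Nat.card_eq_fintype_card, Fintype.card_subtype,
    le_div_iff₀ hpos]
  have hsplit := card_filter_add_card_filter_not (s := (univ : Finset (Ordering n)))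
    (fun σ => Good (process σ) t κ)
  have hsplit' : ((univ.filter (fun σ : Ordering n => Good (process σ) t κ)).card : ℝ) +
      (univ.filter (fun σ : Ordering n => ¬ Good (process σ) t κ)).card =
      Fintype.card (Ordering n) := by
    rw [← card_univ]; exact_mod_cast hsplit
  have hle : ((univ.filter (fun σ : Ordering n => Good (process σ) t κ)).card : ℝ) ≤
      (univ.filter (fun σ : Ordering n => ∀ m : ℕ, 1200 * (n : ℝ) / θ ^ 2 ≤ (m : ℝ) →
        |((D σ m).card : ℝ) - (n : ℝ) / 2| ≤ θ * n)).card := by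
    refine Nat.cast_le.2 (card_le_card ?_)
    intro σ hσ
    rw [mem_filter] at hσ ⊢
    exact ⟨mem_univ _, hgood σ hσ.2⟩
  have h3 : 3 * (4 : ℝ) ^ n * (1 - κ) ^ t * (Fintype.card (Ordering n) : ℝ) ≤
      Real.exp (-(n : ℝ)) * (Fintype.card (Ordering n) : ℝ) :=
    mul_le_mul_of_nonneg_right hexp hpos.le
  linarith

end Pool.Agent.KonigProcess
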