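import Mathlib
import Pool.Agent.Helper92_KP.Main

open Finset Filter Topology

namespace Pool.Agent.KonigProcess

theorem prob_mono {n : ℕ} {P Q : Ordering n → Prop} (h : ∀ σ, P σ → Q σ) :
    prob n P ≤ prob n Q := by
  classical
  unfold prob
  refine div_le_div_of_nonneg_right ?_ (by positivity)
  rw [Nat.card_eq_fintype_card, Nat.card_eq_fintype_card, Fintype.card_subtype,
    Fintype.card_subtype]
  refine Nat.cast_le.2 (card_le_card ?_)
  intro σ hσ
  rw [mem_filter] at hσ ⊢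
  exact ⟨mem_univ _, h σ hσ.2⟩

theorem prob_le_one {n : ℕ} (P : Ordering n → Prop) : prob n P ≤ 1 := by
  classical
  unfold prob
  refine div_le_one_of_le₀ ?_ (by positivity)
  rw [Nat.card_eq_fintype_card, Nat.card_eq_fintype_card, Fintype.card_subtype]
  exact Nat.cast_le.2 (card_le_univ _)

theorem all_times (a : ℕ → ℝ) (ha : Tendsto (fun n : ℕ => a n / (n : ℝ)) atTop atTop) :
    ∃ ε : ℕ → ℝ, Tendsto ε atTop (𝓝 0) ∧
      Tendsto (fun n : ℕ => prob n (fun σ => ∀ m : ℕ, a n ≤ (m : ℝ) → m ≤ n.choose 2 →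
        |((D σ m).card : ℝ) - (n : ℝ) / 2| ≤ ε n * ((n : ℝ) / 2))) atTop (𝓝 1) ∧
      ∀ᶠ n : ℕ in atTop, 1 - Real.exp (-(n : ℝ)) ≤
        prob n (fun σ => ∀ m : ℕ, a n ≤ (m : ℝ) → m ≤ n.choose 2 →
          |((D σ m).card : ℝ) - (n : ℝ) / 2| ≤ ε n * ((n : ℝ) / 2)) := by
  set θ : ℕ → ℝ := fun n => max (Real.sqrt (1200 / (a n / (n : ℝ))))
    (Real.sqrt (Real.sqrt (160000 / (n : ℝ)))) with hθ
  have hn : Tendsto (fun n : ℕ => (n : ℝ)) atTop atTop := tendsto_natCast_atTop_atTop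
  have h1 : Tendsto (fun n : ℕ => Real.sqrt (1200 / (a n / (n : ℝ)))) atTop (𝓝 0) := by
    have := (Real.continuous_sqrt.tendsto 0).comp (ha.const_div_atTop 1200)
    rw [Real.sqrt_zero] at this
    exact this
  have h2 : Tendsto (fun n : ℕ => Real.sqrt (Real.sqrt (160000 / (n : ℝ)))) atTop (𝓝 0) := by
    have h3 := (Real.continuous_sqrt.tendsto 0).comp (hn.const_div_atTop 160000)
    rw [Real.sqrt_zero] at h3
    have := (Real.continuous_sqrt.tendsto 0).comp h3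
    rw [Real.sqrt_zero] at this
    exact this
  have hθ0 : Tendsto θ atTop (𝓝 0) := by
    have := h1.max h2
    rw [max_self] at this
    exact this
  have hev : ∀ᶠ n : ℕ in atTop, 1 - Real.exp (-(n : ℝ)) ≤
        prob n (fun σ => ∀ m : ℕ, a n ≤ (m : ℝ) → m ≤ n.choose 2 →
          |((D σ m).card : ℝ) - (n : ℝ) / 2| ≤ 2 * θ n * ((n : ℝ) / 2)) := by
    have e1 : ∀ᶠ n : ℕ in atTop, θ n ≤ 1 / 8 := hθ0.eventually_le_const (by norm_num)
    have e2 : ∀ᶠ n : ℕ in atTop, 0 < a n / (n : ℝ) := ha.eventually_gt_atTop 0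
    have e3 : ∀ᶠ n : ℕ in atTop, 1 ≤ n := eventually_ge_atTop 1
    filter_upwards [e1, e2, e3] with n e1 e2 e3
    have hn0 : (0 : ℝ) < n := by exact_mod_cast e3
    have hpos : 0 < θ n := by
      refine lt_of_lt_of_le ?_ (le_max_left _ _)
      exact Real.sqrt_pos.2 (by positivity)
    have hθ2 : 1200 / (a n / (n : ℝ)) ≤ θ n ^ 2 := by
      have h4 : Real.sqrt (1200 / (a n / (n : ℝ))) ≤ θ n := le_max_left _ _
      calc 1200 / (a n / (n : ℝ)) = Real.sqrt (1200 / (a n / (n : ℝ))) ^ 2 :=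
            (Real.sq_sqrt (by positivity)).symm
        _ ≤ θ n ^ 2 := pow_le_pow_left₀ (Real.sqrt_nonneg _) h4 2
    have hθ4 : 160000 / (n : ℝ) ≤ θ n ^ 4 := by
      have h4 : Real.sqrt (Real.sqrt (160000 / (n : ℝ))) ≤ θ n := le_max_right _ _
      calc 160000 / (n : ℝ) = Real.sqrt (160000 / (n : ℝ)) ^ 2 :=
            (Real.sq_sqrt (by positivity)).symm
        _ = (Real.sqrt (Real.sqrt (160000 / (n : ℝ))) ^ 2) ^ 2 := by
            rw [Real.sq_sqrt (Real.sqrt_nonneg _)]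
        _ = Real.sqrt (Real.sqrt (160000 / (n : ℝ))) ^ 4 := by ring
        _ ≤ θ n ^ 4 := pow_le_pow_left₀ (Real.sqrt_nonneg _) h4 4
    have hq := quantitative (n := n) hpos e1 (by
      rw [div_le_iff₀ (by positivity)]
      rw [div_le_iff₀ hn0] at hθ4
      linarith)
    refine hq.trans (prob_mono ?_)
    intro σ hσ m hm _
    have h5 : 1200 * (n : ℝ) / θ n ^ 2 ≤ m := by
      refine le_trans ?_ hm
      rw [div_le_iff₀ (by positivity)]
      have h6 : 1200 / (a n / (n : ℝ)) * (a n / (n : ℝ)) ≤ θ n ^ 2 * (a n / (n : ℝ)) :=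
        mul_le_mul_of_nonneg_right hθ2 e2.le
      rw [div_mul_cancel₀ _ e2.ne'] at h6
      have h7 : 1200 * (n : ℝ) ≤ θ n ^ 2 * (a n / (n : ℝ)) * n :=
        mul_le_mul_of_nonneg_right h6 hn0.le
      calc 1200 * (n : ℝ) ≤ θ n ^ 2 * (a n / (n : ℝ)) * n := h7
        _ = a n * θ n ^ 2 := by field_simp
    have h8 := hσ m h5
    calc |((D σ m).card : ℝ) - (n : ℝ) / 2| ≤ θ n * n := h8
      _ = 2 * θ n * ((n : ℝ) / 2) := by ring
  refine ⟨fun n => 2 * θ n, ?_, ?_, hev⟩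
  · simpa using hθ0.const_mul 2
  · have hlow : Tendsto (fun n : ℕ => 1 - Real.exp (-(n : ℝ))) atTop (𝓝 1) := by
      have := (Real.tendsto_exp_neg_atTop_nhds_zero.comp hn).const_sub 1
      simpa using this
    exact tendsto_of_tendsto_of_tendsto_of_le_of_le' hlow tendsto_const_nhds hev
      (Eventually.of_forall (fun n => prob_le_one _))

end Pool.Agent.KonigProcess
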